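import Pool.Agent.Helper58.QD.Stub
import Pool.Agent.Helper14.SS.Syn

/-!
# Relativisation of monadic second-order arithmetic to the segment of the fifth root
-/

set_option autoImplicit false

namespace Pool.Agent.Helper52.QG

open FirstOrder FirstOrder.Language Pool.Agent.Helper20.Spectra Pool.Agent.Helper14.SS
open Pool.Agent.Helper58.QD (sr)

lemma sr_pow' (n : ℕ) : sr n ^ 5 ≤ n := by
  unfold sr
  exact Nat.findGreatest_spec (P := fun b => b ^ 5 ≤ n) (m := 0) (Nat.zero_le _) (by norm_num)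

lemma le_sr' {n b : ℕ} (h : b ^ 5 ≤ n) : b ≤ sr n := by
  unfold sr
  refine Nat.le_findGreatest ?_ h
  exact (Nat.le_self_pow (by norm_num) b).trans h

lemma sr_le (n : ℕ) : sr n ≤ n := (Nat.le_self_pow (by norm_num) _).trans (sr_pow' n)

lemma lt_sr_iff {n x : ℕ} : x < sr n ↔ (x + 1) ^ 5 ≤ n :=
  ⟨fun h => (Nat.pow_le_pow_left h 5).trans (sr_pow' n), fun h => le_sr' h⟩

/-- the condition on an element -/
def InS (n : ℕ) (x : Fin n) : Prop := ((x : ℕ) + 1) ^ 5 ≤ n

lemma NS_InS {k m : ℕ} (i : Fin k) : NS k m (fun n _ v _ => InS n (v i)) := by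
  have ht : IsPoly k (fun v => (v i) ^ 5 + 5 * (v i) ^ 4 + 10 * (v i) ^ 3 + 10 * (v i) ^ 2 +
      5 * v i) :=
    (((((IsPoly.var i).pow 5).add ((Pool.Agent.Helper20.Spectra.IsPoly.const 5).mul ((IsPoly.var i).pow 4))).add
      ((Pool.Agent.Helper20.Spectra.IsPoly.const 10).mul ((IsPoly.var i).pow 3))).add
      ((Pool.Agent.Helper20.Spectra.IsPoly.const 10).mul ((IsPoly.var i).pow 2))).add ((Pool.Agent.Helper20.Spectra.IsPoly.const 5).mul (IsPoly.var i))
  refine (NS.peq (m := m) ht ht).congr fun n b v V => ?_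
  have e : ((v i : ℕ) + 1) ^ 5 = (vn v i ^ 5 + 5 * vn v i ^ 4 + 10 * vn v i ^ 3 +
      10 * vn v i ^ 2 + 5 * vn v i) + 1 := by
    show ((v i : ℕ) + 1) ^ 5 = ((v i : ℕ) ^ 5 + 5 * (v i : ℕ) ^ 4 + 10 * (v i : ℕ) ^ 3 +
      10 * (v i : ℕ) ^ 2 + 5 * (v i : ℕ)) + 1
    ring
  show ((v i : ℕ) + 1) ^ 5 ≤ n ↔ _
  rw [e]
  simp only [true_and]
  exact Nat.succ_le_iff

/-- the embedding of the segment -/
def up {n : ℕ} (x : Fin (sr n)) : Fin n := Fin.castLE (sr_le n) x

lemma up_inj {n : ℕ} : Function.Injective (up (n := n)) := Fin.castLE_injective (sr_le n)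

/-- the embedding of the segment -/
def upE (n : ℕ) : Fin (sr n) ↪ Fin n := ⟨up, up_inj⟩

lemma up_val {n : ℕ} (x : Fin (sr n)) : (up x : ℕ) = x := rfl

lemma up_InS {n : ℕ} (x : Fin (sr n)) : InS n (up x) := lt_sr_iff.1 x.2

lemma exists_up {n : ℕ} {x : Fin n} (h : InS n x) : ∃ y : Fin (sr n), up y = x :=
  ⟨⟨x, lt_sr_iff.2 h⟩, Fin.ext rfl⟩

private lemma term_var {S : Type} {ar : S → ℕ} {β : Type} (t : (RelLang S ar).Term β) :
    ∃ x : β, t = Term.var x := by
  cases t with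
  | var x => exact ⟨x, rfl⟩
  | func f _ => exact Empty.elim f

/-- first-order formulas -/
lemma rel_fo {m : ℕ} {α : Type} {l : ℕ} (θ : ArL.BoundedFormula α l) :
    ∀ {K : ℕ} (g : α → Fin K) (h : Fin l → Fin K), ∃ P : Pd K m, NS K m P ∧
      ∀ (n b : ℕ) (w : Fin K → Fin (sr n)) (V : Fin m → Finset (Fin n)),
        P n b (up ∘ w) V ↔ @BoundedFormula.Realize ArL (Fin (sr n)) (mkS (arI (sr n))) α l θ
          (w ∘ g) (w ∘ h) := by
  induction θ with
  | falsum => exact fun g h => ⟨_, NS.const False, fun _ _ _ _ => Iff.rfl⟩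
  | @equal l t₁ t₂ =>
    intro K g h
    obtain ⟨a, rfl⟩ := term_var t₁
    obtain ⟨b, rfl⟩ := term_var t₂
    refine ⟨_, NS.eq (Sum.elim g h a) (Sum.elim g h b), fun n _ w V => ?_⟩
    have e : ∀ a : α ⊕ Fin l, Sum.elim (w ∘ g) (w ∘ h) a = w (Sum.elim g h a) := by
      rintro (a | a) <;> rfl
    show up _ = up _ ↔ Sum.elim (w ∘ g) (w ∘ h) a = Sum.elim (w ∘ g) (w ∘ h) b
    rw [e, e]
    exact up_inj.eq_iff
  | @rel l r R ts =>
    intro K g h
    obtain ⟨s, rfl⟩ := R
    choose a ha using fun i => term_var (ts i)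
    have ha' : ts = fun i => Term.var (a i) := funext ha
    subst ha'
    have e : ∀ (n : ℕ) (w : Fin K → Fin (sr n)) (a : α ⊕ Fin l),
        Sum.elim (w ∘ g) (w ∘ h) a = w (Sum.elim g h a) := by
      rintro n w (a | a) <;> rfl
    cases s with
    | true =>
      refine ⟨_, NS.add (Sum.elim g h (a 0)) (Sum.elim g h (a 1)) (Sum.elim g h (a 2)),
        fun n _ w V => ?_⟩
      show _ ↔ ((Sum.elim (w ∘ g) (w ∘ h) (a 0) : Fin (sr n)) : ℕ) +
        (Sum.elim (w ∘ g) (w ∘ h) (a 1) : Fin (sr n)) = (Sum.elim (w ∘ g) (w ∘ h) (a 2) : Fin (sr n))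
      rw [e, e, e]
      exact Iff.rfl
    | false =>
      refine ⟨_, NS.mul (Sum.elim g h (a 0)) (Sum.elim g h (a 1)) (Sum.elim g h (a 2)),
        fun n _ w V => ?_⟩
      show _ ↔ ((Sum.elim (w ∘ g) (w ∘ h) (a 0) : Fin (sr n)) : ℕ) *
        (Sum.elim (w ∘ g) (w ∘ h) (a 1) : Fin (sr n)) = (Sum.elim (w ∘ g) (w ∘ h) (a 2) : Fin (sr n))
      rw [e, e, e]
      exact Iff.rfl
  | imp θ₁ θ₂ ih₁ ih₂ =>
    intro K g h
    obtain ⟨P, hP, hP'⟩ := ih₁ g h
    obtain ⟨Q, hQ, hQ'⟩ := ih₂ g h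
    exact ⟨_, hP.imp hQ, fun n b w V => imp_congr (hP' n b w V) (hQ' n b w V)⟩
  | @all l θ ih =>
    intro K g h
    obtain ⟨P, hP, hP'⟩ := ih (K := K + 1) (fun a => (g a).succ)
      (Fin.snoc (fun i => (h i).succ) 0 : Fin (l + 1) → Fin (K + 1))
    refine ⟨fun n b v V => ∀ x : Fin n, InS n x → P n b (Fin.cons x v) V, ?_,
      fun n b w V => ?_⟩
    · refine NS.all (((NS_InS 0).imp hP).congr fun n b v V => ?_)
      rw [Fin.cons_self_tail]
    · have e1 : ∀ x : Fin (sr n), (Fin.cons (up x) (up ∘ w) : Fin (K + 1) → Fin n) =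
          up ∘ (Fin.cons x w : Fin (K + 1) → Fin (sr n)) := by
        intro x
        funext i
        refine Fin.cases ?_ (fun i => ?_) i <;> rfl
      have e2 : ∀ x : Fin (sr n), ((Fin.cons x w : Fin (K + 1) → Fin (sr n)) ∘
          fun a => (g a).succ) = w ∘ g := fun x => rfl
      have e3 : ∀ x : Fin (sr n), ((Fin.cons x w : Fin (K + 1) → Fin (sr n)) ∘
          (Fin.snoc (fun i => (h i).succ) 0 : Fin (l + 1) → Fin (K + 1))) =
          (Fin.snoc (w ∘ h) x : Fin (l + 1) → Fin (sr n)) := by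
        intro x
        funext i
        refine Fin.lastCases ?_ (fun i => ?_) i
        · simp
        · simp
      constructor
      · intro H x
        have h1 := H (up x) (up_InS x)
        rw [e1, hP', e2, e3] at h1
        exact h1
      · intro H x hx
        obtain ⟨y, rfl⟩ := exists_up hx
        rw [e1, hP', e2, e3]
        exact H y

/-- formulas with set quantifiers -/
lemma rel_SFm {k m : ℕ} (φ : SFm ArL k m) : ∃ P : Pd k m, NS k m P ∧
    ∀ (n : ℕ) (w : Fin k → Fin (sr n)) (V : Fin m → Finset (Fin (sr n))),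
      P n (sr n) (up ∘ w) (fun j => (V j).map (upE n)) ↔
        @SFm.Holds ArL (Fin (sr n)) (mkS (arI (sr n))) (sr n) k m φ w V := by
  induction φ with
  | @fo k m φ =>
    obtain ⟨P, hP, hP'⟩ := rel_fo (m := m) φ (id : Fin k → Fin k) Fin.elim0
    refine ⟨P, hP, fun n w V => (hP' n (sr n) w _).trans ?_⟩
    have e : w ∘ (Fin.elim0 : Fin 0 → Fin k) = default := funext fun i => i.elim0
    rw [e]
    exact Iff.rfl
  | mem i j =>
    refine ⟨_, NS.mem i j, fun n w V => ?_⟩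
    exact Finset.mem_map' (upE n)
  | not φ ih =>
    obtain ⟨P, hP, hP'⟩ := ih
    exact ⟨_, hP.not, fun n w V => not_congr (hP' n w V)⟩
  | and φ ψ ih₁ ih₂ =>
    obtain ⟨P, hP, hP'⟩ := ih₁
    obtain ⟨Q, hQ, hQ'⟩ := ih₂
    exact ⟨_, hP.and hQ, fun n w V => and_congr (hP' n w V) (hQ' n w V)⟩
  | @ex k m φ ih =>
    obtain ⟨P, hP, hP'⟩ := ih
    refine ⟨fun n b v V => ∃ x : Fin n, InS n x ∧ P n b (Fin.cons x v) V, ?_, fun n w V => ?_⟩
    · refine NS.ex (((NS_InS 0).and hP).congr fun n b v V => ?_)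
      rw [Fin.cons_self_tail]
    · have e1 : ∀ x : Fin (sr n), (Fin.cons (up x) (up ∘ w) : Fin (k + 1) → Fin n) =
          up ∘ (Fin.cons x w : Fin (k + 1) → Fin (sr n)) := by
        intro x
        funext i
        refine Fin.cases ?_ (fun i => ?_) i <;> rfl
      constructor
      · rintro ⟨x, hx, H⟩
        obtain ⟨y, rfl⟩ := exists_up hx
        rw [e1, hP'] at H
        exact ⟨y, H⟩
      · rintro ⟨y, H⟩
        refine ⟨up y, up_InS y, ?_⟩
        rw [e1, hP']
        exact H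
  | @exSet k m φ ih =>
    obtain ⟨P, hP, hP'⟩ := ih
    refine ⟨fun n b v V => ∃ X : Finset (Fin n), X.card ≤ b ∧ (∀ x, x ∈ X → InS n x) ∧
      P n b v (Fin.cons X V), ?_, fun n w V => ?_⟩
    · refine NS.exS (NS.and (NS.all ((NS.mem (k := k + 1) (m := m + 1) 0 0).imp (NS_InS 0)))
        (hP.congr fun n b v V => ?_))
      rw [Fin.cons_self_tail]
    · have e1 : ∀ X : Finset (Fin (sr n)), (Fin.cons (X.map (upE n))
          (fun j => (V j).map (upE n)) : Fin (m + 1) → Finset (Fin n)) =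
          fun j => ((Fin.cons X V : Fin (m + 1) → Finset (Fin (sr n))) j).map (upE n) := by
        intro X
        funext i
        refine Fin.cases ?_ (fun i => ?_) i <;> rfl
      constructor
      · rintro ⟨X, hX, hX', H⟩
        classical
        have h1 : (Finset.univ.filter fun y : Fin (sr n) => up y ∈ X).map (upE n) = X := by
          ext x
          simp only [Finset.mem_map, Finset.mem_filter, Finset.mem_univ, true_and]
          constructor
          · rintro ⟨y, hy, rfl⟩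
            exact hy
          · intro hx
            obtain ⟨y, rfl⟩ := exists_up (hX' x hx)
            exact ⟨y, hx, rfl⟩
        rw [← h1, e1, hP'] at H
        refine ⟨_, ?_, H⟩
        have h2 := Finset.card_map (upE n) (s := Finset.univ.filter fun y : Fin (sr n) => up y ∈ X)
        rw [h1] at h2
        omega
      · rintro ⟨X, hX, H⟩
        refine ⟨X.map (upE n), by rwa [Finset.card_map], fun x hx => ?_, ?_⟩
        · obtain ⟨y, -, rfl⟩ := Finset.mem_map.1 hx
          exact up_InS y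
        · rw [e1, hP']
          exact H

/-- relativisation of arithmetical monadic second-order sentences to the fifth root -/
def StmtRel : Prop := ∀ φ : SFm ArL 0 0, ∃ φ' : SFm ArL 0 0, ∀ n, 1 ≤ n →
  (n ∈ arithS sr φ' ↔ sr n ∈ arithS (fun m => m) φ)

theorem stmtRel : StmtRel := by
  intro φ
  obtain ⟨P, ⟨φ', hφ'⟩, hP⟩ := rel_SFm φ
  refine ⟨φ', fun n hn => ?_⟩
  have h1 : 1 ≤ sr n := le_sr' (by simpa using hn)
  have h2 := hP n Fin.elim0 Fin.elim0
  have e1 : up ∘ (Fin.elim0 : Fin 0 → Fin (sr n)) = Fin.elim0 := funext fun i => i.elim0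
  have e2 : (fun j : Fin 0 => ((Fin.elim0 j : Finset (Fin (sr n)))).map (upE n)) = Fin.elim0 :=
    funext fun i => i.elim0
  rw [e1, e2] at h2
  show (1 ≤ n ∧ _) ↔ (1 ≤ sr n ∧ _)
  rw [hφ']
  constructor
  · rintro ⟨_, h⟩
    exact ⟨h1, h2.1 h⟩
  · rintro ⟨_, h⟩
    exact ⟨hn, h2.2 h⟩

end Pool.Agent.Helper52.QG
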